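import Pool.Graph.R_seed8.Helper904.Kh.P_final
import Pool.Graph.R_seed8.Helper904.Kh.P_goodAll

set_option autoImplicit false

namespace Pool.Agent.Results.MP_01bd7f_al.FiveGroups

open Pool.Agent.Helper904.Kh

/-- `φ` is an automorphism of `G` of order `p` whose fixed points are all central. -/
def CentralCentralizer {G : Type} [Group G] (p : ℕ) (φ : MulAut G) : Prop :=
  orderOf φ = p ∧ ∀ g : G, φ g = g → g ∈ Subgroup.center G

theorem finite_part (n : ℕ) : ∃ (G : Type) (_ : Group G) (_ : Finite G), IsPGroup 5 G ∧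
    (∃ φ : MulAut G, CentralCentralizer 5 φ) ∧ derivedSeries G n ≠ ⊥ := by
  obtain ⟨G, iG, iF, hP, φ, ho, hfix, hd⟩ := final_core (n + 1) (by omega) (good_all (n + 1))
  refine ⟨G, iG, iF, hP, ⟨φ, ho, hfix⟩, fun h => hd ?_⟩
  exact le_bot_iff.1 (h ▸ derivedSeries_antitone G (Nat.le_succ n))

/-- The derived length of finite `5`-groups with an automorphism of order `5` with central
centralizer is unbounded, and there is even a non-soluble product of such groups with an
automorphism of order `5` with central centralizer. -/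
theorem result :
    (∀ n : ℕ, ∃ (G : Type) (_ : Group G) (_ : Finite G), IsPGroup 5 G ∧
      (∃ φ : MulAut G, CentralCentralizer 5 φ) ∧ derivedSeries G n ≠ ⊥) ∧
    ∃ (G : ℕ → Type) (_ : ∀ n, Group (G n)), (∀ n, Finite (G n) ∧ IsPGroup 5 (G n)) ∧
      ¬ Group.IsSolvable (∀ n, G n) ∧ ∃ φ : MulAut (∀ n, G n), CentralCentralizer 5 φ := by
  refine ⟨finite_part, ?_⟩
  choose G iG iF hP hφ hd using finite_part
  choose φ ho hfix using hφ
  refine ⟨G, iG, fun n => ⟨iF n, hP n⟩, ?_, MulEquiv.piCongrRight φ, ?_, ?_⟩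
  · rintro ⟨n, hn⟩
    refine hd n ?_
    have hs : Function.Surjective (Pi.evalMonoidHom G n) := Function.surjective_eval n
    have := map_derivedSeries_eq (f := Pi.evalMonoidHom G n) hs n
    rw [← this, hn, Subgroup.map_bot]
  · have : Fact (Nat.Prime 5) := ⟨by norm_num⟩
    have h5 : ∀ n, (φ n) ^ 5 = 1 := fun n => ho n ▸ pow_orderOf_eq_one (φ n)
    refine orderOf_eq_prime ?_ fun h => ?_
    · ext g n
      have e : ∀ k : ℕ, ((MulEquiv.piCongrRight φ : MulAut (∀ n, G n)) ^ k) g n =
          ((φ n) ^ k) (g n) := fun k => by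
        induction k with
        | zero => rfl
        | succ k ih =>
          rw [pow_succ', pow_succ', MulAut.mul_apply, MulAut.mul_apply]
          show φ n (((MulEquiv.piCongrRight φ : MulAut (∀ n, G n)) ^ k) g n) = _
          rw [ih]
      rw [e, h5]; rfl
    · have h1 : φ 0 = 1 := by
        ext x
        classical
        have := congrFun (congrArg (fun ψ : MulAut (∀ n, G n) => ψ (Pi.mulSingle 0 x)) h) 0
        have h2 : φ 0 ((Pi.mulSingle 0 x : ∀ n, G n) 0) = (Pi.mulSingle 0 x : ∀ n, G n) 0 := this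
        rw [Pi.mulSingle_eq_same] at h2
        exact h2
      have := ho 0
      rw [h1, orderOf_one] at this
      omega
  · intro g hg
    rw [Subgroup.mem_center_iff]
    intro h
    funext n
    have h1 : φ n (g n) = g n := congrFun hg n
    exact Subgroup.mem_center_iff.1 (hfix n _ h1) (h n)

end Pool.Agent.Results.MP_01bd7f_al.FiveGroups
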